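import Mathlib
import Pool.Agent.Lib.helper15.CF3

namespace Pool.Agent.Results.MP_e522d8_an.TypeA
open Filter Topology

open Classical in
/-- `s a w = a / (1 + w)` on the Riemann sphere; `s 0` is the constant `0` -/
noncomputable def s (a : ℂ) (w : OnePoint ℂ) : OnePoint ℂ :=
  if a = 0 then ((0 : ℂ) : OnePoint ℂ) else
    OnePoint.rec ((0 : ℂ) : OnePoint ℂ)
      (fun z : ℂ => if 1 + z = 0 then OnePoint.infty else ((a / (1 + z) : ℂ) : OnePoint ℂ)) w

/-- the value `s a₁ (s a₂ (⋯ (s aₙ 0)))` of the finite continued fraction -/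
noncomputable def val (l : List ℂ) : OnePoint ℂ := l.foldr s ((0 : ℂ) : OnePoint ℂ)

/-- `V_A(E)` is a bounded subset of `ℂ` -/
def ValBounded (E : Set ℂ) : Prop :=
  ∃ M : ℝ, ∀ l : List ℂ, l ≠ [] → (∀ a ∈ l, a ∈ E) → ∃ z : ℂ, val l = z ∧ ‖z‖ ≤ M

/-- `E` is a type-A convergence set -/
def ConvSet (E : Set ℂ) : Prop :=
  ∀ a : ℕ → ℂ, (∀ n, a n ∈ E) →
    ∃ L : ℂ, Tendsto (fun n => val ((List.range n).map a)) atTop (𝓝 (L : OnePoint ℂ))

open Pool.Agent.Lib.helper15.CF

theorem result : ∃ E : Set ℂ, ValBounded E ∧ ¬ ConvSet E := by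
  have z0 : ∀ k, ζ k ≠ 0 := fun k => by simpa using ζ0 k 0
  have z1 : ∀ k, ζ k - 1 ≠ 0 := fun k => by simpa using ζ0 k 1
  have z2 : ∀ k, ζ k + 1 ≠ 0 := fun k => by simpa using ζ0 k (-1)
  set t : ℕ → ℂ := fun k => (1 - ζ k) / (2 * ζ k) with ht
  have t0 : ∀ k, t k ≠ 0 := fun k => div_ne_zero (sub_ne_zero.2 (sub_ne_zero.1 (z1 k)).symm)
    (mul_ne_zero two_ne_zero (z0 k))
  have t1 : ∀ k, 1 + t k = (ζ k + 1) / (2 * ζ k) := fun k => by
    have := z0 k; simp only [ht]; field_simp; ring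
  have t2 : ∀ k, 1 + t k ≠ 0 := fun k => t1 k ▸ div_ne_zero (z2 k) (mul_ne_zero two_ne_zero (z0 k))
  set c : ℕ → ℂ := fun k => t k * (1 + t (k + 1)) with hc
  refine And.elim (fun g1 g2 => ?_) (gen (m := m) (by norm_num) s c (fun _ => 1) t c (fun z => R (2 * z + 1))
    (by simp [R]) (fun k z hz => ?_) t0 (fun _ => rfl) (fun k => t2 _) (sA.congr fun k => ?_))
  · exact ⟨Set.range c, ⟨2, fun l _ => g1 l⟩, fun h => g2 (h c fun n => ⟨n, rfl⟩)⟩
  · obtain ⟨r, r0, r1, a1, a2, a3, a4⟩ := adm k le_rfl zero_le_one (θ := 4 * c k + 1) (by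
      have := z0 k; have := z0 (k + 1)
      simp only [hc, t1, ht, Complex.ofReal_zero, sub_zero]; field_simp; ring)
    have f := far hz
    rw [show 1 + (2 * z + 1) = 2 * (1 + z) by ring, norm_mul, Complex.norm_two] at f
    have f0 : 1 + z ≠ 0 := fun e => by rw [e, norm_zero] at f; linarith
    refine ⟨f0, ?_, ?_, ?_⟩
    · rw [s, if_neg (mul_ne_zero (t0 _) (t2 _))]
      exact if_neg f0
    · have hH := toH hz
      have e : 2 * (c k / (1 + z)) + 1 = (2 * z + 1) / (1 + (2 * z + 1)) +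
          (4 * c k + 1) * (1 - (2 * z + 1) / (1 + (2 * z + 1))) := by
        rw [show 1 + (2 * z + 1) = 2 * (1 + z) by ring]; field_simp; ring
      rw [e]
      generalize (2 * z + 1) / (1 + (2 * z + 1)) = v at hH
      generalize 4 * c k + 1 = θ at a1 a2 a3
      obtain ⟨b1, b2⟩ := H_le hH
      have b3 := hH.1
      have r5 := pow_pos r0 5
      have r4 : r ^ 4 ≤ (1 / 10) ^ 4 := pow_le_pow_left₀ r0.le r1 4
      rcases le_or_gt (1 / 2) v.re with h | h
      · have i1 : 0 ≤ (v + θ * (1 - v)).re := by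
          simp; nlinarith [mul_nonneg (show 0 ≤ θ.im by linarith) b3]
        have i2 : 0 ≤ (v + θ * (1 - v)).im := by
          simp; nlinarith [mul_nonneg (show 0 ≤ θ.im by linarith) (sub_nonneg.2 b2),
            mul_nonneg (neg_nonneg.2 a1) b3]
        exact ⟨i2, by positivity⟩
      · refine step hH r0 r1 (e := -θ.re * (1 - v.re)) (d := θ.im * (1 - v.re))
          (mul_nonneg (neg_nonneg.2 a1) (sub_nonneg.2 b2)) (by nlinarith) (by nlinarith) ?_ ?_
        · simp; nlinarith [mul_nonneg (show 0 ≤ θ.im by linarith) b3]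
        · simp; nlinarith [mul_nonneg (neg_nonneg.2 a1) b3]
    · have : ‖c k‖ ≤ 1 / 2 := by
        have := norm_sub_le (4 * c k + 1) 1
        rw [add_sub_cancel_right, norm_mul, norm_one, Complex.norm_ofNat] at this
        linarith
      rw [norm_div, div_le_iff₀ (norm_pos_iff.2 f0)]
      linarith
  · have := z0 (k + 1); have := z1 (k + 1)
    have h3 : 1 - ζ (k + 1) ≠ 0 := sub_ne_zero.2 (sub_ne_zero.1 this).symm
    congr 3
    simp only [t1, ht, y]; field_simp; ring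

end Pool.Agent.Results.MP_e522d8_an.TypeA
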