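import Mathlib
import Pool.Agent.Lib.helper15.CF3

namespace Pool.Agent.Results.MP_e522d8_an.TypeB
open Filter Topology

open Classical in
/-- `s b w = 1 / (b + w)` on the Riemann sphere -/
noncomputable def s (b : ℂ) (w : OnePoint ℂ) : OnePoint ℂ :=
  OnePoint.rec ((0 : ℂ) : OnePoint ℂ)
    (fun z : ℂ => if b + z = 0 then OnePoint.infty else ((1 / (b + z) : ℂ) : OnePoint ℂ)) w

/-- the value `s b₁ (s b₂ (⋯ (s bₙ 0)))` of the finite continued fraction -/
noncomputable def val (l : List ℂ) : OnePoint ℂ := l.foldr s ((0 : ℂ) : OnePoint ℂ)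

/-- `V_B(E)` is a bounded subset of `ℂ` -/
def ValBounded (E : Set ℂ) : Prop :=
  ∃ M : ℝ, ∀ l : List ℂ, l ≠ [] → (∀ a ∈ l, a ∈ E) → ∃ z : ℂ, val l = z ∧ ‖z‖ ≤ M

/-- `E` is a type-B convergence set -/
def ConvSet (E : Set ℂ) : Prop :=
  ∀ b : ℕ → ℂ, (∀ n, b n ∈ E) →
    ∃ L : ℂ, Tendsto (fun n => val ((List.range n).map b)) atTop (𝓝 (L : OnePoint ℂ))

open Pool.Agent.Lib.helper15.CF Complex

theorem result : ∃ E : Set ℂ, ValBounded E ∧ ¬ ConvSet E := by
  have z0 : ∀ k, ζ k ≠ 0 := fun k => by simpa using ζ0 k 0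
  have z1 : ∀ k, ζ k - 1 ≠ 0 := fun k => by simpa using ζ0 k 1
  set t : ℕ → ℂ := fun k => -I * (ζ k - 1) / ζ k with ht
  have t0 : ∀ k, t k ≠ 0 := fun k => div_ne_zero (mul_ne_zero (neg_ne_zero.2 I_ne_zero) (z1 k)) (z0 k)
  set c : ℕ → ℂ := fun k => 1 / t k - t (k + 1) with hc
  refine And.elim (fun g1 g2 => ?_) (gen (m := m) (by norm_num) s (fun _ => 1) c t c (fun z => H (1 - I * z))
    (by simp [H]) (fun k z hz => ?_) t0 (fun k => by have := t0 k; simp only [hc]; field_simp; ring)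
    (fun k => by simpa [hc] using t0 k) (sB.congr fun k => ?_))
  · exact ⟨Set.range c, ⟨2, fun l _ => g1 l⟩, fun h => g2 (h c fun n => ⟨n, rfl⟩)⟩
  · obtain ⟨r, r0, r1, a1, a2, a3, -⟩ := adm k zero_le_one le_rfl (θ := -I * c k - 2) (by
      have := z0 k; have := z0 (k + 1); have := z1 k
      simp only [hc, ht, ofReal_one]; field_simp
      linear_combination (-(ζ k - 1) * (ζ (k + 1) - 1)) * I_sq)
    have hR : R (1 - I * z + (-I * c k - 2)) := step hz r0 r1 (e := -(-I * c k - 2).re)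
      (d := (-I * c k - 2).im) (neg_nonneg.2 a1) (by linarith [pow_pos r0 4])
      (by linarith [pow_pos r0 5]) (by rw [add_re]; linarith) (by rw [add_im])
    have f := far hR
    have e : 1 + (1 - I * z + (-I * c k - 2)) = -I * (c k + z) := by ring
    have hH := toH hR
    rw [e, norm_mul, norm_neg, norm_I, one_mul] at f
    have f0 : c k + z ≠ 0 := fun e => by rw [e, norm_zero] at f; linarith
    refine ⟨f0, ?_, ?_, ?_⟩
    · exact if_neg f0
    · convert hH using 1
      rw [e]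
      field_simp
      linear_combination -I_sq
    · rw [norm_div, div_le_iff₀ (norm_pos_iff.2 f0), norm_one]
      linarith
  · have := z0 k; have := z1 k; have := z0 (k + 1); have := z1 (k + 1)
    congr 3
    simp only [hc, sub_add_cancel, ht, y]; field_simp
    linear_combination (ζ k * ζ (k + 1)) * I_sq

end Pool.Agent.Results.MP_e522d8_an.TypeB
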